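import Mathlib
import Pool.Agent.H.MP_8b2bd9_co.J

set_option autoImplicit false

namespace Pool.Agent.Results.MP_843c79_co.Exp

theorem result : ∀ k : ℕ, ∃ H : Finset ℝ, H.card = k ∧ (∀ h ∈ H, 0 < h) ∧
    ((3 ^ k : ℕ) : ℕ∞) ≤ (SimpleGraph.fromRel
      (fun x y : EuclideanSpace ℝ (Fin 2) => dist x y ∈ H)).chromaticNumber :=
  Pool.Agent.H.MP_8b2bd9_co.main4

end Pool.Agent.Results.MP_843c79_co.Exp
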